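import Mathlib
import Pool.Agent.W34.GB.Stm
set_option autoImplicit false
open Polynomial Pool.Agent.H337R2 Metric Set Filter Topology

namespace Pool.Agent.W813.GZ
open Pool.Agent.W34.GB

noncomputable section

def Wf (z : ℂ) : ℂ := (1 + z) / (1 - z)

def ff (t z : ℂ) : ℂ := Complex.exp (2 * t * Complex.log (Wf z))

lemma one_sub_ne {z : ℂ} (hz : ‖z‖ < 1) : (1 : ℂ) - z ≠ 0 := by
  intro h
  have : z = 1 := (sub_eq_zero.1 h).symm
  rw [this, norm_one] at hz
  exact lt_irrefl _ hz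

lemma one_add_ne {z : ℂ} (hz : ‖z‖ < 1) : (1 : ℂ) + z ≠ 0 := by
  have := one_sub_ne (z := -z) (by simpa using hz)
  simpa using this

lemma nsq {z : ℂ} : Complex.normSq (1 - z) = (1 - z.re) ^ 2 + z.im ^ 2 := by
  rw [Complex.normSq_apply]; simp; ring

lemma Wre {z : ℂ} (hz : ‖z‖ < 1) : (Wf z).re = (1 - ‖z‖ ^ 2) / Complex.normSq (1 - z) := by
  have h0 : Complex.normSq (1 - z) ≠ 0 := by
    rw [Ne, Complex.normSq_eq_zero]; exact one_sub_ne hz
  have h1 : ‖z‖ ^ 2 = z.re ^ 2 + z.im ^ 2 := by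
    rw [← Complex.normSq_eq_norm_sq, Complex.normSq_apply]; ring
  rw [Wf, Complex.div_re, h1, ← add_div]
  congr 1
  simp
  ring

lemma Wim {z : ℂ} (hz : ‖z‖ < 1) : (Wf z).im = 2 * z.im / Complex.normSq (1 - z) := by
  have h0 : Complex.normSq (1 - z) ≠ 0 := by
    rw [Ne, Complex.normSq_eq_zero]; exact one_sub_ne hz
  rw [Wf, Complex.div_im, ← sub_div]
  congr 1
  simp
  ring

lemma Wre_pos {z : ℂ} (hz : ‖z‖ < 1) : 0 < (Wf z).re := by
  rw [Wre hz]
  have h0 : Complex.normSq (1 - z) ≠ 0 := by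
    rw [Ne, Complex.normSq_eq_zero]; exact one_sub_ne hz
  have h1 : 0 < Complex.normSq (1 - z) := lt_of_le_of_ne (Complex.normSq_nonneg _) (Ne.symm h0)
  have : ‖z‖ ^ 2 < 1 := by nlinarith [norm_nonneg z]
  exact div_pos (by linarith) h1

lemma hasDeriv_ff (t : ℂ) {z : ℂ} (hz : ‖z‖ < 1) :
    HasDerivAt (ff t) (4 * t / (1 - z ^ 2) * ff t z) z := by
  have h1 : HasDerivAt Wf (((1 : ℂ) * (1 - z) - (1 + z) * (-1)) / (1 - z) ^ 2) z := by
    unfold Wf
    have a1 : HasDerivAt (fun z : ℂ => 1 + z) 1 z := (hasDerivAt_id z).const_add 1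
    have a2 : HasDerivAt (fun z : ℂ => 1 - z) (-1) z := (hasDerivAt_id z).const_sub 1
    exact a1.div a2 (one_sub_ne hz)
  have h2 : Wf z ∈ Complex.slitPlane := Or.inl (Wre_pos hz)
  have h3 := ((h1.clog h2).const_mul (2 * t)).cexp
  refine h3.congr_deriv ?_
  unfold ff
  have e1 := one_sub_ne hz
  have e2 := one_add_ne hz
  have e3 : (1 : ℂ) - z ^ 2 ≠ 0 := by
    have : (1 : ℂ) - z ^ 2 = (1 - z) * (1 + z) := by ring
    rw [this]; exact mul_ne_zero e1 e2
  have e4 : (1 * (1 - z) - (1 + z) * -1) / (1 - z) ^ 2 / Wf z = 2 / (1 - z ^ 2) := by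
    unfold Wf
    field_simp
    ring
  rw [mul_comm (Complex.exp _)]
  rw [e4]
  ring

lemma ff_zero (t : ℂ) : ff t 0 = 1 := by
  simp [ff, Wf]

/-- `∮ f(z) z^(-n-1) dz` -/
def II (t : ℂ) (r : ℝ) (n : ℤ) : ℂ := ∮ z in C(0, r), ff t z * z ^ (-n - 1)

lemma cont_ff (t : ℂ) {r : ℝ} (hr1 : r < 1) : ContinuousOn (ff t) (closedBall 0 r) := by
  intro z hz
  have : ‖z‖ < 1 := by
    rw [mem_closedBall, dist_zero_right] at hz; linarith
  exact (hasDeriv_ff t this).continuousAt.continuousWithinAt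

lemma norm_of_sphere {z : ℂ} {r : ℝ} (hz : z ∈ sphere (0:ℂ) r) : ‖z‖ = r := by
  simpa using hz

lemma ci_ff (t : ℂ) {r : ℝ} (hr0 : 0 < r) (hr1 : r < 1) (m : ℤ) :
    CircleIntegrable (fun z => ff t z * z ^ m) 0 r := by
  apply ContinuousOn.circleIntegrable hr0.le
  intro z hz
  have hz1 := norm_of_sphere hz
  have : ‖z‖ < 1 := by linarith
  have hz0 : z ≠ 0 := by
    intro h; rw [h, norm_zero] at hz1; linarith
  exact ((hasDeriv_ff t this).continuousAt.mul (continuousAt_zpow₀ z m (Or.inl hz0))).continuousWithinAt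

lemma ci_fd (t : ℂ) {r : ℝ} (hr0 : 0 < r) (hr1 : r < 1) (m : ℤ) :
    CircleIntegrable (fun z => 4 * t / (1 - z ^ 2) * ff t z * z ^ m) 0 r := by
  apply ContinuousOn.circleIntegrable hr0.le
  intro z hz
  have hz1 := norm_of_sphere hz
  have hz2 : ‖z‖ < 1 := by linarith
  have hz0 : z ≠ 0 := by
    intro h; rw [h, norm_zero] at hz1; linarith
  have e3 : (1 : ℂ) - z ^ 2 ≠ 0 := by
    have : (1 : ℂ) - z ^ 2 = (1 - z) * (1 + z) := by ring
    rw [this]; exact mul_ne_zero (one_sub_ne hz2) (one_add_ne hz2)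
  have c1 : ContinuousAt (fun z : ℂ => 4 * t / (1 - z ^ 2)) z := by
    have c3 : ContinuousAt (fun z : ℂ => (1 : ℂ) - z ^ 2) z := by fun_prop
    exact (continuousAt_const (y := 4 * t)).div c3 e3
  exact ((c1.mul (hasDeriv_ff t hz2).continuousAt).mul (continuousAt_zpow₀ z m (Or.inl hz0))).continuousWithinAt

/-- integration by parts -/
lemma parts (t : ℂ) {r : ℝ} (hr0 : 0 < r) (hr1 : r < 1) (n : ℤ) :
    (∮ z in C(0, r), 4 * t / (1 - z ^ 2) * ff t z * z ^ (-n)) = n * II t r n := by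
  have h := circleIntegral.integral_eq_zero_of_hasDerivWithinAt (c := (0:ℂ)) (R := r) hr0.le
    (f := fun z => ff t z * z ^ (-n))
    (f' := fun z => 4 * t / (1 - z ^ 2) * ff t z * z ^ (-n) + ff t z * ((-n : ℤ) * z ^ (-n - 1))) (by
      intro z hz
      have hz1 := norm_of_sphere hz
      have hz2 : ‖z‖ < 1 := by linarith
      have hz0 : z ≠ 0 := by
        intro h; rw [h, norm_zero] at hz1; linarith
      exact ((hasDeriv_ff t hz2).mul (hasDerivAt_zpow (-n) z (Or.inl hz0))).hasDerivWithinAt)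
  have e : (∮ z in C(0, r), (4 * t / (1 - z ^ 2) * ff t z * z ^ (-n) + ff t z * ((-n : ℤ) * z ^ (-n - 1)))) =
      (∮ z in C(0, r), 4 * t / (1 - z ^ 2) * ff t z * z ^ (-n)) + ((-n : ℤ) : ℂ) * II t r n := by
    have e1 : ∀ z : ℂ, ff t z * ((-n : ℤ) * z ^ (-n - 1)) = ((-n : ℤ) : ℂ) * (ff t z * z ^ (-n - 1)) := by
      intro z; ring
    simp only [e1]
    have c2 : CircleIntegrable (fun z => ((-n : ℤ) : ℂ) * (ff t z * z ^ (-n - 1))) 0 r :=
      IntervalIntegrable.const_mul (ci_ff t hr0 hr1 (-n - 1)) _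
    rw [circleIntegral.integral_add (ci_fd t hr0 hr1 (-n)) c2]
    rw [circleIntegral.integral_const_mul]
    rfl
  rw [e] at h
  push_cast at h
  linear_combination h

lemma rec_II (t : ℂ) {r : ℝ} (hr0 : 0 < r) (hr1 : r < 1) (n : ℤ) :
    ((n : ℂ) + 1) * II t r (n + 1) = 4 * t * II t r n + (n - 1) * II t r (n - 1) := by
  have h1 := parts t hr0 hr1 (n + 1)
  have h2 := parts t hr0 hr1 (n - 1)
  push_cast at h1 h2
  rw [← h1, ← h2]
  have e : (4 * t * II t r n) = (∮ z in C(0, r), 4 * t / (1 - z ^ 2) * ff t z * z ^ (-(n + 1))) -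
      (∮ z in C(0, r), 4 * t / (1 - z ^ 2) * ff t z * z ^ (-(n - 1))) := by
    rw [← circleIntegral.integral_sub (ci_fd t hr0 hr1 _) (ci_fd t hr0 hr1 _), II,
      ← circleIntegral.integral_const_mul]
    apply circleIntegral.integral_congr hr0.le
    intro z hz
    have hz1 := norm_of_sphere hz
    have hz2 : ‖z‖ < 1 := by linarith
    have hz0 : z ≠ 0 := by
      intro h; rw [h, norm_zero] at hz1; linarith
    have e3 : (1 : ℂ) - z ^ 2 ≠ 0 := by
      have : (1 : ℂ) - z ^ 2 = (1 - z) * (1 + z) := by ring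
      rw [this]; exact mul_ne_zero (one_sub_ne hz2) (one_add_ne hz2)
    have e4 : z ^ (-(n - 1)) = z ^ 2 * z ^ (-n - 1) := by
      rw [← zpow_natCast z 2, ← zpow_add₀ hz0]; congr 1; push_cast; ring
    have e5 : z ^ (-(n + 1)) = z ^ (-n - 1) := by congr 1; ring
    simp only
    rw [e4, e5]
    field_simp
  rw [e]
  ring

lemma II_zero (t : ℂ) {r : ℝ} (hr0 : 0 < r) (hr1 : r < 1) : II t r 0 = 2 * Real.pi * Complex.I := by
  have hd : ∀ z ∈ ball (0:ℂ) r \ (∅ : Set ℂ), DifferentiableAt ℂ (ff t) z := by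
    intro z hz
    have : ‖z‖ < 1 := by
      have := hz.1
      rw [mem_ball, dist_zero_right] at this; linarith
    exact (hasDeriv_ff t this).differentiableAt
  have h := Complex.circleIntegral_sub_inv_smul_of_differentiable_on_off_countable
    (Set.countable_empty) (mem_ball_self hr0) (cont_ff t hr1) hd
  rw [ff_zero] at h
  simp only [sub_zero, smul_eq_mul, mul_one] at h
  rw [← h, II]
  apply circleIntegral.integral_congr hr0.le
  intro z hz
  simp only
  rw [show (-(0:ℤ) - 1) = -1 by norm_num, zpow_neg_one]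
  ring

lemma II_neg_one (t : ℂ) {r : ℝ} (hr0 : 0 < r) (hr1 : r < 1) : II t r (-1) = 0 := by
  have hd : ∀ z ∈ ball (0:ℂ) r \ (∅ : Set ℂ), DifferentiableAt ℂ (ff t) z := by
    intro z hz
    have : ‖z‖ < 1 := by
      have := hz.1
      rw [mem_ball, dist_zero_right] at this; linarith
    exact (hasDeriv_ff t this).differentiableAt
  have h := Complex.circleIntegral_eq_zero_of_differentiable_on_off_countable hr0.le
    (Set.countable_empty) (cont_ff t hr1) hd
  rw [← h, II]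
  apply circleIntegral.integral_congr hr0.le
  intro z hz
  simp

lemma II_val (t : ℂ) {r : ℝ} (hr0 : 0 < r) (hr1 : r < 1) (n : ℕ) :
    (n.factorial : ℂ) * II t r n = 4 ^ n * aeval t (mp n) * (2 * Real.pi * Complex.I) := by
  induction n using Nat.strong_induction_on with
  | _ n ih =>
    match n, ih with
    | 0, _ =>
      have := II_zero t hr0 hr1
      simp [mp, this]
    | 1, _ =>
      have h := rec_II t hr0 hr1 0
      have h2 := II_neg_one t hr0 hr1
      have h0 := II_zero t hr0 hr1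
      simp only [Int.cast_zero, zero_add, zero_sub, one_mul, h2, mul_zero, add_zero, h0] at h
      simp [mp, h]
    | n + 2, ih =>
      have i1 := ih (n + 1) (by omega)
      have i0 := ih n (by omega)
      have h := rec_II t hr0 hr1 ((n : ℤ) + 1)
      have e1 : ((n : ℤ) + 1 + 1) = ((n + 2 : ℕ) : ℤ) := by push_cast; ring
      have e2 : ((n : ℤ) + 1) = ((n + 1 : ℕ) : ℤ) := by push_cast; ring
      have e3 : (((n + 1 : ℕ) : ℤ) - 1) = ((n : ℕ) : ℤ) := by push_cast; ring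
      rw [e1, e2, e3] at h
      push_cast at h
      have f2 : ((n + 2).factorial : ℂ) = ((n : ℂ) + 2) * ((n + 1).factorial : ℂ) := by
        rw [Nat.factorial_succ]; push_cast; ring
      have f1 : ((n + 1).factorial : ℂ) = ((n : ℂ) + 1) * (n.factorial : ℂ) := by
        rw [Nat.factorial_succ]; push_cast; ring
      have m2 : aeval t (mp (n + 2)) = t * aeval t (mp (n + 1)) + ((n : ℂ) + 1) * n / 16 * aeval t (mp n) := by
        rw [mp]; simp
      push_cast at i1 i0
      rw [m2, f2]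
      have g : ((n : ℂ) + 1 + 1) = (n : ℂ) + 2 := by ring
      rw [g] at h
      have : ((n : ℂ) + 2) * ((n + 1).factorial : ℂ) * II t r ((n + 2 : ℕ) : ℤ) =
          ((n + 1).factorial : ℂ) * (((n : ℂ) + 2) * II t r ((n + 2 : ℕ) : ℤ)) := by ring
      rw [this]
      push_cast
      rw [h]
      have k1 : ((n + 1).factorial : ℂ) * (4 * t * II t r ((n : ℤ) + 1) + ((n : ℂ) + 1 - 1) * II t r n) =
          4 * t * (((n + 1).factorial : ℂ) * II t r ((n : ℤ) + 1)) +
            (n : ℂ) * ((n : ℂ) + 1) * ((n.factorial : ℂ) * II t r n) := by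
        rw [f1]; ring
      rw [k1, i1, i0]
      ring

/-! ## bounds -/

lemma arctan_le {r : ℝ} (hr0 : 0 ≤ r) (hr1 : r ≤ 1) : Real.arctan r ≤ Real.pi / 4 - (1 - r) / 2 := by
  have hmono : MonotoneOn (fun x : ℝ => Real.arctan x - x / 2) (Icc 0 1) := by
    apply monotoneOn_of_deriv_nonneg (convex_Icc 0 1)
    · fun_prop
    · intro x _
      exact ((Real.differentiable_arctan x).sub (differentiable_id.div_const 2 x)).differentiableWithinAt
    · intro x hx
      rw [interior_Icc] at hx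
      have hd : HasDerivAt (fun x : ℝ => Real.arctan x - x / 2) (1 / (1 + x ^ 2) - 1 / 2) x :=
        (Real.hasDerivAt_arctan x).sub ((hasDerivAt_id x).div_const 2)
      rw [hd.deriv]
      have h1 : x ^ 2 ≤ 1 := by nlinarith [hx.1, hx.2]
      rw [sub_nonneg]
      apply one_div_le_one_div_of_le <;> nlinarith [sq_nonneg x]
  have h := hmono ⟨hr0, hr1⟩ ⟨zero_le_one, le_rfl⟩ hr1
  simp only [Real.arctan_one] at h
  linarith

lemma arg_bd {z : ℂ} {r : ℝ} (hr0 : 0 < r) (hr1 : r < 1) (hz : ‖z‖ = r) :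
    |(Complex.log (Wf z)).im| ≤ Real.pi / 2 - (1 - r) := by
  have hz1 : ‖z‖ < 1 := by linarith
  rw [Complex.log_im]
  have hre := Wre_pos hz1
  have h1 : |Complex.arg (Wf z)| < Real.pi / 2 := by
    rw [Complex.abs_arg_lt_pi_div_two_iff]; exact Or.inl hre
  rw [abs_lt] at h1
  have h2 : Complex.arg (Wf z) = Real.arctan ((Wf z).im / (Wf z).re) := by
    rw [← Complex.tan_arg, Real.arctan_tan (by linarith [h1.1]) h1.2]
  have h0 : Complex.normSq (1 - z) ≠ 0 := by
    rw [Ne, Complex.normSq_eq_zero]; exact one_sub_ne hz1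
  have h3 : (Wf z).im / (Wf z).re = 2 * z.im / (1 - r ^ 2) := by
    rw [Wre hz1, Wim hz1, hz]
    field_simp
  rw [h2, h3]
  have hden : 0 < 1 - r ^ 2 := by nlinarith
  have him : |z.im| ≤ r := by rw [← hz]; exact Complex.abs_im_le_norm z
  have h4 := Real.two_mul_arctan (x := r) (by linarith) hr1
  have h5 := arctan_le hr0.le hr1.le
  have up : Real.arctan (2 * z.im / (1 - r ^ 2)) ≤ 2 * Real.arctan r := by
    rw [h4]
    apply Real.arctan_strictMono.monotone
    exact div_le_div_of_nonneg_right (by linarith [(abs_le.1 him).2]) hden.le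
  have lo : -(2 * Real.arctan r) ≤ Real.arctan (2 * z.im / (1 - r ^ 2)) := by
    rw [h4, ← Real.arctan_neg]
    apply Real.arctan_strictMono.monotone
    rw [← neg_div]
    exact div_le_div_of_nonneg_right (by linarith [(abs_le.1 him).1]) hden.le
  rw [abs_le]
  constructor <;> linarith

lemma log_bd {z : ℂ} {r : ℝ} (hr0 : 0 < r) (hr1 : r < 1) (hz : ‖z‖ = r) :
    |(Complex.log (Wf z)).re| ≤ Real.log ((1 + r) / (1 - r)) := by
  have hz1 : ‖z‖ < 1 := by linarith
  rw [Complex.log_re, Wf, norm_div]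
  have a1 : ‖1 + z‖ ≤ 1 + r := by
    have := norm_add_le (1:ℂ) z; rwa [norm_one, hz] at this
  have a2 : ‖1 - z‖ ≤ 1 + r := by
    have := norm_sub_le (1:ℂ) z; rwa [norm_one, hz] at this
  have a3 : 1 - r ≤ ‖1 - z‖ := by
    have := norm_sub_norm_le (1:ℂ) z; rwa [norm_one, hz] at this
  have a4 : 1 - r ≤ ‖1 + z‖ := by
    have := norm_sub_norm_le (1:ℂ) (-z); rwa [norm_one, norm_neg, hz, sub_neg_eq_add] at this
  have p : 0 < 1 - r := by linarith
  have p1 : 0 < ‖1 - z‖ := by linarith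
  have p2 : 0 < ‖1 + z‖ := by linarith
  rw [abs_le]
  constructor
  · rw [← Real.log_inv, inv_div]
    apply Real.log_le_log (by positivity)
    exact div_le_div₀ (by linarith) a4 (by linarith) a2
  · apply Real.log_le_log (by positivity)
    exact div_le_div₀ (by linarith) a1 p a3

lemma ff_bd {a y : ℝ} (ha : |a| ≤ 1 / 8) {z : ℂ} {r : ℝ} (hr0 : 0 < r) (hr1 : r < 1) (hz : ‖z‖ = r) :
    ‖ff ((a : ℂ) + y * Complex.I) z‖ ≤
      Real.exp (1 / 4 * Real.log ((1 + r) / (1 - r)) + |y| * (Real.pi - 2 * (1 - r))) := by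
  rw [ff, Complex.norm_exp]
  apply Real.exp_le_exp.2
  have h1 := arg_bd hr0 hr1 hz
  have h2 := log_bd hr0 hr1 hz
  generalize Complex.log (Wf z) = l at h1 h2
  have e : (2 * ((a : ℂ) + y * Complex.I) * l).re = 2 * a * l.re - 2 * y * l.im := by
    simp
  rw [e]
  have b1 : a * l.re ≤ 1 / 8 * Real.log ((1 + r) / (1 - r)) := by
    refine (le_abs_self _).trans ?_
    rw [abs_mul]
    exact mul_le_mul ha h2 (abs_nonneg _) (by norm_num)
  have b2 : -(y * l.im) ≤ |y| * (Real.pi / 2 - (1 - r)) := by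
    refine (neg_le_abs _).trans ?_
    rw [abs_mul]
    exact mul_le_mul_of_nonneg_left h1 (abs_nonneg _)
  nlinarith

theorem A2 : A2s := by
  refine ⟨Real.exp 2, Real.exp_pos 2, ?_⟩
  intro n a y ha
  set t : ℂ := (a : ℂ) + y * Complex.I with ht
  set r : ℝ := ((n : ℝ) + 1) / ((n : ℝ) + 2) with hr
  have hn1 : (0:ℝ) < (n : ℝ) + 1 := by positivity
  have hn2 : (0:ℝ) < (n : ℝ) + 2 := by positivity
  have hr0 : 0 < r := by positivity
  have hr1 : r < 1 := by rw [hr, div_lt_one hn2]; linarith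
  have h1r : 1 - r = 1 / ((n : ℝ) + 2) := by rw [hr]; field_simp; ring
  set S : ℝ := Real.exp (1 / 4 * Real.log ((1 + r) / (1 - r)) + |y| * (Real.pi - 2 * (1 - r))) with hS
  have hS0 : 0 < S := Real.exp_pos _
  -- bound of the contour integral
  have hI : ‖II t r n‖ ≤ 2 * Real.pi * r * (S * (r ^ (n + 1))⁻¹) := by
    unfold II
    apply circleIntegral.norm_integral_le_of_norm_le_const hr0.le
    intro z hz
    have hz1 := norm_of_sphere hz
    rw [norm_mul, norm_zpow, hz1]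
    have e : r ^ (-(n : ℤ) - 1) = (r ^ (n + 1))⁻¹ := by
      rw [← zpow_natCast, ← zpow_neg]; congr 1; push_cast; ring
    rw [e]
    exact mul_le_mul_of_nonneg_right (ff_bd ha hr0 hr1 hz1) (by positivity)
  have hv := II_val t hr0 hr1 n
  have hv2 := congrArg norm hv
  rw [norm_mul, norm_mul, norm_mul, norm_pow] at hv2
  simp only [Complex.norm_natCast, Complex.norm_mul, Complex.norm_I, mul_one, Complex.norm_ofNat,
    Complex.norm_real, Real.norm_eq_abs, abs_of_pos Real.pi_pos] at hv2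
  have hpi := Real.pi_pos
  set A : ℝ := ‖aeval t (mp n)‖ with hA
  have hA0 : 0 ≤ A := norm_nonneg _
  have hrn : 0 < r ^ n := by positivity
  have h3 : 4 ^ n * A ≤ (n.factorial : ℝ) * (S * (r ^ n)⁻¹) := by
    have h4 : 4 ^ n * A * (2 * Real.pi) ≤ (n.factorial : ℝ) * (S * (r ^ n)⁻¹) * (2 * Real.pi) := by
      rw [← hv2]
      have h5 := mul_le_mul_of_nonneg_left hI (Nat.cast_nonneg (α := ℝ) n.factorial)
      refine h5.trans (le_of_eq ?_)
      rw [pow_succ]
      field_simp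
    exact le_of_mul_le_mul_right h4 (by positivity)
  -- numerical bounds
  have hS2 : S ^ 2 ≤ ((n : ℝ) + 2) * Real.exp ((2 * Real.pi - 4 / ((n : ℝ) + 2)) * |y|) := by
    have q : 0 < (1 + r) / (1 - r) := by
      apply div_pos <;> linarith
    have e1 : S ^ 2 = Real.exp (1 / 2 * Real.log ((1 + r) / (1 - r))) *
        Real.exp ((2 * Real.pi - 4 / ((n : ℝ) + 2)) * |y|) := by
      rw [hS, ← Real.exp_nat_mul, ← Real.exp_add, h1r]
      congr 1
      push_cast
      ring
    rw [e1]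
    refine mul_le_mul_of_nonneg_right ?_ (Real.exp_pos _).le
    have e2 : Real.exp (1 / 2 * Real.log ((1 + r) / (1 - r))) = √((1 + r) / (1 - r)) := by
      rw [Real.sqrt_eq_rpow, Real.rpow_def_of_pos q, mul_comm]
    rw [e2]
    apply Real.sqrt_le_iff.2
    refine ⟨hn2.le, ?_⟩
    have e3 : (1 + r) / (1 - r) = 2 * n + 3 := by
      rw [h1r, hr]; field_simp; ring
    rw [e3]
    nlinarith [sq_nonneg (n : ℝ), Nat.cast_nonneg (α := ℝ) n]
  have hR : ((r ^ n)⁻¹) ^ 2 ≤ Real.exp 2 := by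
    have e1 : r⁻¹ = 1 + 1 / ((n : ℝ) + 1) := by rw [hr]; field_simp; ring
    have e2 : (r ^ n)⁻¹ ≤ Real.exp 1 := by
      rw [← inv_pow, e1]
      have e3 : 1 + 1 / ((n : ℝ) + 1) ≤ Real.exp (1 / ((n : ℝ) + 1)) := by
        have := Real.add_one_le_exp (1 / ((n : ℝ) + 1)); linarith
      refine (pow_le_pow_left₀ (by positivity) e3 n).trans ?_
      rw [← Real.exp_nat_mul]
      apply Real.exp_le_exp.2
      rw [mul_one_div, div_le_one hn1]
      linarith
    refine (pow_le_pow_left₀ (by positivity) e2 2).trans ?_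
    rw [← Real.exp_nat_mul]
    norm_num
  have h16 : (16:ℝ) ^ n = (4 ^ n) ^ 2 := by
    rw [← pow_mul, mul_comm, pow_mul]; norm_num
  have h4n : (0:ℝ) < 4 ^ n := by positivity
  have fin : (4 ^ n * A) ^ 2 ≤ Real.exp 2 * ((n : ℝ) + 2) * (n.factorial : ℝ) ^ 2 *
      Real.exp ((2 * Real.pi - 4 / ((n : ℝ) + 2)) * |y|) := by
    have k0 := pow_le_pow_left₀ (by positivity) h3 2
    refine k0.trans ?_
    have k1 : ((n.factorial : ℝ) * (S * (r ^ n)⁻¹)) ^ 2 = (n.factorial : ℝ) ^ 2 * (S ^ 2 * ((r ^ n)⁻¹) ^ 2) := by ring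
    rw [k1]
    have k2 := mul_le_mul hS2 hR (by positivity) (by positivity)
    have k3 := mul_le_mul_of_nonneg_left k2 (sq_nonneg (n.factorial : ℝ))
    refine k3.trans (le_of_eq ?_)
    ring
  rw [h16]
  have : A ^ 2 = (4 ^ n * A) ^ 2 / (4 ^ n) ^ 2 := by field_simp
  rw [this, div_mul_eq_mul_div]
  exact div_le_div_of_nonneg_right fin (by positivity)

end

end Pool.Agent.W813.GZ
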